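import Pool.Agent.V11152.CSd

set_option autoImplicit false

open Module Finset

namespace Pool.Agent.K4H69.SF

/-- The Gaussian binomial coefficient `∏_{j < b} (q ^ (a - j) - 1) / (q ^ (b - j) - 1)`, and `0` if `b > a`. -/
def gb (q a b : ℕ) : ℚ :=
  if b ≤ a then ∏ j ∈ range b, ((q : ℚ) ^ (a - j) - 1) / ((q : ℚ) ^ (b - j) - 1) else 0

section arith

lemma gb_zero (q a : ℕ) : gb q a 0 = 1 := by simp [gb]

lemma one_lt_pow' {q : ℕ} (hq : 2 ≤ q) {e : ℕ} (he : 1 ≤ e) : (1 : ℚ) < (q : ℚ) ^ e := by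
  have h : (1 : ℚ) < q := by exact_mod_cast (show 1 < q by omega)
  exact one_lt_pow₀ h (by omega)

lemma gb_succ {q : ℕ} (a b : ℕ) (hab : b ≤ a) :
    gb q (a + 1) (b + 1) = ((q : ℚ) ^ (a + 1) - 1) / ((q : ℚ) ^ (b + 1) - 1) * gb q a b := by
  unfold gb
  rw [if_pos hab, if_pos (by omega), prod_range_succ']
  simp only [Nat.sub_zero, Nat.add_sub_add_right]
  ring

lemma gb_nonneg {q : ℕ} (hq : 2 ≤ q) (a b : ℕ) : 0 ≤ gb q a b := by
  unfold gb
  split_ifs with h
  · apply prod_nonneg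
    intro j hj
    rw [mem_range] at hj
    have h1 := one_lt_pow' hq (show 1 ≤ a - j by omega)
    have h2 := one_lt_pow' hq (show 1 ≤ b - j by omega)
    apply div_nonneg <;> linarith
  · exact le_rfl

/-- `q ^ (a - b) * gb a b ≤ gb (a + 1) (b + 1)` for `b ≤ a` -/
lemma gb_step {q : ℕ} (hq : 2 ≤ q) (a b : ℕ) (hab : b ≤ a) :
    (q : ℚ) ^ (a - b) * gb q a b ≤ gb q (a + 1) (b + 1) := by
  rw [gb_succ a b hab]
  apply mul_le_mul_of_nonneg_right _ (gb_nonneg hq a b)
  have h2 := one_lt_pow' hq (show 1 ≤ b + 1 by omega)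
  have h3 : (1 : ℚ) ≤ (q : ℚ) ^ (a - b) := by
    have : (1 : ℚ) ≤ q := by exact_mod_cast (show 1 ≤ q by omega)
    exact one_le_pow₀ this
  rw [le_div_iff₀ (by linarith)]
  have h4 : (q : ℚ) ^ (a + 1) = (q : ℚ) ^ (a - b) * (q : ℚ) ^ (b + 1) := by
    rw [← pow_add]; congr 1; omega
  rw [h4]
  nlinarith

/-- `gb (k + 1) k = (q ^ (k + 1) - 1) / (q - 1)` -/
lemma gb_hyper {q : ℕ} (hq : 2 ≤ q) (k : ℕ) : gb q (k + 1) k = ((q : ℚ) ^ (k + 1) - 1) / (q - 1) := by
  induction k with
  | zero =>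
    rw [gb_zero]
    have : (1 : ℚ) < q := by exact_mod_cast (show 1 < q by omega)
    rw [zero_add, pow_one, div_self (by linarith)]
  | succ k ih =>
    rw [gb_succ (k + 1) k (by omega), ih]
    have h2 := one_lt_pow' hq (show 1 ≤ k + 1 by omega)
    have : (1 : ℚ) < q := by exact_mod_cast (show 1 < q by omega)
    have h3 : (q : ℚ) ^ (k + 1) - 1 ≠ 0 := by linarith
    have h4 : (q : ℚ) - 1 ≠ 0 := by linarith
    field_simp

lemma gb_one {q : ℕ} (m : ℕ) (hm : 1 ≤ m) : gb q m 1 = ((q : ℚ) ^ m - 1) / (q - 1) := by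
  unfold gb
  rw [if_pos hm]
  simp

/-- `gb (j + t) (b + t)`-comparison -/
lemma gb_steps {q : ℕ} (hq : 2 ≤ q) (a b t : ℕ) (hab : b ≤ a) :
    (q : ℚ) ^ ((a - b) * t) * gb q a b ≤ gb q (a + t) (b + t) := by
  induction t with
  | zero => simp
  | succ t ih =>
    have h1 := gb_step hq (a + t) (b + t) (by omega)
    have h2 : (q : ℚ) ^ ((a - b) * (t + 1)) * gb q a b =
        (q : ℚ) ^ (a + t - (b + t)) * ((q : ℚ) ^ ((a - b) * t) * gb q a b) := by
      rw [← mul_assoc, ← pow_add]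
      congr 2
      rw [show a + t - (b + t) = a - b by omega]
      ring
    rw [h2]
    refine le_trans ?_ h1
    exact mul_le_mul_of_nonneg_left ih (by positivity)

end arith

section count

variable {K V : Type} [Field K] [Finite K] [AddCommGroup V] [Module K V] [Module.Finite K V]

lemma two_le_card (K : Type) [Field K] [Finite K] : 2 ≤ Nat.card K := Finite.one_lt_card

omit [Module.Finite K V] in
lemma finSub' [Module.Finite K V] : Finite (Submodule K V) := Pool.Agent.V11152.CS.finSub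

/-- the number of `d`-dimensional subspaces -/
lemma card_dim (d : ℕ) (hd : d ≤ finrank K V) :
    (Nat.card {W : Submodule K V // finrank K W = d} : ℚ) = gb (Nat.card K) (finrank K V) d := by
  have : Finite V := Pool.Agent.V11152.CS.finV K V
  have : Fintype K := Fintype.ofFinite K
  have h1 := Pool.Agent.V11152.CS.gr_cardV K (V := V) (finrank K V) d rfl hd
  have hq : 2 ≤ Fintype.card K := Fintype.one_lt_card
  rw [Nat.card_eq_fintype_card (α := K)]
  set q := Fintype.card K with hqdef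
  have h2 : ((Nat.card {W : Submodule K V // finrank K W = d} : ℕ) : ℚ) *
      ∏ i ∈ range d, ((q : ℚ) ^ d - (q : ℚ) ^ i) =
      ∏ i ∈ range d, ((q : ℚ) ^ (finrank K V) - (q : ℚ) ^ i) := by
    have h3 := congrArg (fun x : ℕ => (x : ℚ)) h1
    simp only [Nat.cast_mul, Nat.cast_prod] at h3
    have e1 : ∀ i ∈ range d, ((q ^ d - q ^ i : ℕ) : ℚ) = (q : ℚ) ^ d - (q : ℚ) ^ i := by
      intro i hi
      rw [mem_range] at hi
      rw [Nat.cast_sub (Nat.pow_le_pow_right (by omega) (by omega))]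
      push_cast; rfl
    have e2 : ∀ i ∈ range d, ((q ^ (finrank K V) - q ^ i : ℕ) : ℚ) =
        (q : ℚ) ^ (finrank K V) - (q : ℚ) ^ i := by
      intro i hi
      rw [mem_range] at hi
      rw [Nat.cast_sub (Nat.pow_le_pow_right (by omega) (by omega))]
      push_cast; rfl
    rw [prod_congr rfl e1, prod_congr rfl e2] at h3
    exact h3
  have hne : ∏ i ∈ range d, ((q : ℚ) ^ d - (q : ℚ) ^ i) ≠ 0 := by
    rw [prod_ne_zero_iff]
    intro i hi
    rw [mem_range] at hi
    have h5 : (q : ℚ) ^ i < (q : ℚ) ^ d :=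
      pow_lt_pow_right₀ (by exact_mod_cast (show 1 < q by omega)) hi
    linarith
  rw [← eq_div_iff hne] at h2
  rw [h2, gb, if_pos hd, ← prod_div_distrib]
  apply prod_congr rfl
  intro i hi
  rw [mem_range] at hi
  have hqi : ((q : ℚ) ^ i) ≠ 0 := by
    apply pow_ne_zero
    have : (2 : ℚ) ≤ q := by exact_mod_cast hq
    linarith
  have e1 : (q : ℚ) ^ (finrank K V) - (q : ℚ) ^ i =
      (q : ℚ) ^ i * ((q : ℚ) ^ (finrank K V - i) - 1) := by
    rw [mul_sub, ← pow_add, mul_one]; congr 2; omega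
  have e2 : (q : ℚ) ^ d - (q : ℚ) ^ i = (q : ℚ) ^ i * ((q : ℚ) ^ (d - i) - 1) := by
    rw [mul_sub, ← pow_add, mul_one]; congr 2; omega
  rw [e1, e2, mul_div_mul_left _ _ hqi]

/-- the number of `k`-dimensional subspaces containing a given subspace -/
lemma card_above (S : Submodule K V) (k : ℕ) (hS : finrank K S ≤ k) (hk : k ≤ finrank K V) :
    (Nat.card {W : Submodule K V // finrank K W = k ∧ S ≤ W} : ℚ) =
      gb (Nat.card K) (finrank K V - finrank K S) (k - finrank K S) := by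
  have hq := Submodule.finrank_quotient_add_finrank (R := K) S
  have h1 : finrank K (V ⧸ S) = finrank K V - finrank K S := by omega
  rw [← h1, ← card_dim (K := K) (V := V ⧸ S) (k - finrank K S) (by omega)]
  congr 1
  apply Nat.card_congr
  have hdim : ∀ W : Submodule K (V ⧸ S), finrank K (W.comap S.mkQ) = finrank K W + finrank K S := by
    intro W
    have h3 : (W.comap S.mkQ).map S.mkQ = W :=
      Submodule.map_comap_eq_of_surjective (Submodule.mkQ_surjective S) W
    have hle : S ≤ W.comap S.mkQ := Submodule.le_comap_mkQ S W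
    have h4 := LinearMap.finrank_range_add_finrank_ker (S.mkQ.domRestrict (W.comap S.mkQ))
    rw [LinearMap.range_domRestrict, h3, LinearMap.ker_domRestrict, Submodule.ker_mkQ,
      (Submodule.comapSubtypeEquivOfLe hle).finrank_eq] at h4
    omega
  refine ⟨fun W => ⟨W.1.map S.mkQ, ?_⟩, fun W => ⟨W.1.comap S.mkQ, ?_, ?_⟩, ?_, ?_⟩
  · have h2 := hdim (W.1.map S.mkQ)
    rw [Submodule.comap_map_mkQ, sup_eq_right.2 W.2.2, W.2.1] at h2
    omega
  · rw [hdim, W.2]; omega
  · exact Submodule.le_comap_mkQ S W.1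
  · intro W
    apply Subtype.ext
    simp only
    rw [Submodule.comap_map_mkQ, sup_eq_right.2 W.2.2]
  · intro W
    apply Subtype.ext
    simp only
    exact Submodule.map_comap_eq_of_surjective (Submodule.mkQ_surjective S) W.1

end count

end Pool.Agent.K4H69.SF
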