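import Pool.Agent.K4H69.SFa

set_option autoImplicit false

open Module Finset

namespace Pool.Agent.K4H69.SF

variable {K V : Type} [Field K] [Finite K] [AddCommGroup V] [Module K V] [Module.Finite K V]

noncomputable instance fintypeSub : Fintype (Submodule K V) :=
  @Fintype.ofFinite _ finSub'

open Classical in
/-- The number of members of the family `F` that contain `P`. -/
noncomputable def deg (F : Finset (Submodule K V)) (P : Submodule K V) : ℕ :=
  (F.filter (fun W => P ≤ W)).card

open Classical in
/-- the points of the subspace `U` -/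
noncomputable def pts (U : Submodule K V) : Finset (Submodule K V) :=
  univ.filter (fun P => finrank K P = 1 ∧ P ≤ U)

lemma mem_pts {U P : Submodule K V} : P ∈ pts U ↔ finrank K P = 1 ∧ P ≤ U := by simp [pts]

/-- subspaces of `U` of dimension `d` inside `V` versus in `U` -/
lemma card_le_sub (U : Submodule K V) (d : ℕ) (hd : d ≤ finrank K U) :
    (Nat.card {W : Submodule K V // finrank K W = d ∧ W ≤ U} : ℚ) =
      gb (Nat.card K) (finrank K U) d := by
  rw [← card_dim (K := K) (V := U) d hd]
  congr 1
  apply Nat.card_congr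
  refine ⟨fun W => ⟨W.1.comap U.subtype, ?_⟩, fun W => ⟨W.1.map U.subtype, ?_, ?_⟩, ?_, ?_⟩
  · rw [(Submodule.comapSubtypeEquivOfLe W.2.2).finrank_eq, W.2.1]
  · rw [Submodule.finrank_map_subtype_eq, W.2]
  · exact Submodule.map_subtype_le U W.1
  · intro W
    apply Subtype.ext
    simp only
    rw [Submodule.map_comap_subtype, inf_eq_right.2 W.2.2]
  · intro W
    apply Subtype.ext
    simp only
    exact Submodule.comap_map_eq_of_injective U.subtype_injective W.1

lemma card_pts (U : Submodule K V) :
    ((pts U).card : ℚ) = ((Nat.card K : ℚ) ^ (finrank K U) - 1) / (Nat.card K - 1) := by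
  classical
  rcases Nat.eq_zero_or_pos (finrank K U) with h | h
  · have : pts U = ∅ := by
      rw [eq_empty_iff_forall_notMem]
      intro P hP
      rw [mem_pts] at hP
      have := Submodule.finrank_mono hP.2
      omega
    rw [this, h]
    simp
  · rw [← gb_one _ h, ← card_le_sub U 1 h, Nat.card_eq_fintype_card, Fintype.card_subtype]
    rfl

lemma exists_pt {U : Submodule K V} (hU : U ≠ ⊥) : ∃ P : Submodule K V, finrank K P = 1 ∧ P ≤ U := by
  obtain ⟨x, hx, h0⟩ := Submodule.exists_mem_ne_zero_of_ne_bot hU
  exact ⟨K ∙ x, finrank_span_singleton h0, by rwa [Submodule.span_singleton_le_iff_mem]⟩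

lemma deg_le (F : Finset (Submodule K V)) (k : ℕ) (hF : ∀ W ∈ F, finrank K W = k)
    (S : Submodule K V) (hS : finrank K S ≤ k) (hk : k ≤ finrank K V) :
    (deg F S : ℚ) ≤ gb (Nat.card K) (finrank K V - finrank K S) (k - finrank K S) := by
  classical
  rw [← card_above S k hS hk, Nat.card_eq_fintype_card, Fintype.card_subtype]
  unfold deg
  norm_cast
  apply card_le_card
  intro W hW
  rw [mem_filter] at hW ⊢
  exact ⟨mem_univ _, hF W hW.1, hW.2⟩

lemma pt_eq {P Q : Submodule K V} (hP : finrank K P = 1) (hQ : finrank K Q = 1) (h : P ≤ Q) : P = Q :=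
  Submodule.eq_of_le_of_finrank_eq h (by rw [hP, hQ])

/-- adding a point outside raises the dimension by one -/
lemma finrank_sup_pt {P U : Submodule K V} (hP : finrank K P = 1) (h : ¬ P ≤ U) :
    finrank K (U ⊔ P : Submodule K V) = finrank K U + 1 := by
  have h1 := Submodule.finrank_sup_add_finrank_inf_eq U P
  have h2 : finrank K (U ⊓ P : Submodule K V) = 0 := by
    have h3 := Submodule.finrank_mono (inf_le_right : U ⊓ P ≤ P)
    rw [hP] at h3
    by_contra h4
    have h5 : finrank K (U ⊓ P : Submodule K V) = 1 := by omega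
    have h6 := pt_eq h5 hP inf_le_right
    exact h (by rw [← h6]; exact inf_le_left)
  omega

end Pool.Agent.K4H69.SF
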