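import Pool.Agent.K4H69.SFb

set_option autoImplicit false

open Module Finset

namespace Pool.Agent.K4H69.SF

variable {K V : Type} [Field K] [Finite K] [AddCommGroup V] [Module K V] [Module.Finite K V]

/-- the number `[m] = 1 + q + ... + q ^ (m - 1)` -/
def br (q m : ℕ) : ℕ := ∑ j ∈ range m, q ^ j

lemma br_cast {q : ℕ} (hq : 2 ≤ q) (m : ℕ) : (br q m : ℚ) = ((q : ℚ) ^ m - 1) / (q - 1) := by
  have : (1 : ℚ) < q := by exact_mod_cast (show 1 < q by omega)
  unfold br
  push_cast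
  rw [geom_sum_eq (by linarith)]

lemma br_mono {q : ℕ} {m m' : ℕ} (h : m ≤ m') : br q m ≤ br q m' := by
  unfold br
  exact sum_le_sum_of_subset (range_mono h)

lemma br_lt {q : ℕ} (hq : 2 ≤ q) {m m' : ℕ} (h : m < m') : br q m < br q m' := by
  refine lt_of_lt_of_le ?_ (br_mono (show m + 1 ≤ m' from h))
  unfold br
  rw [sum_range_succ]
  have : 0 < q ^ m := by positivity
  omega

lemma card_pts' (U : Submodule K V) : (pts U).card = br (Nat.card K) (finrank K U) := by
  have h := card_pts U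
  rw [← br_cast (two_le_card K)] at h
  exact_mod_cast h

/-- The number of hyperplanes of `T` that do not contain the point `X ≤ T`. -/
lemma card_hyper (T X : Submodule K V) (k : ℕ) (hT : finrank K T = k + 1) (hX : finrank K X = 1)
    (hXT : X ≤ T) (hk : 1 ≤ k) :
    (Nat.card {G : Submodule K V // (finrank K G = k ∧ G ≤ T) ∧ ¬ X ≤ G} : ℚ) =
      (Nat.card K : ℚ) ^ k := by
  classical
  have h1 := card_le_sub T k (by omega)
  rw [hT, gb_hyper (two_le_card K)] at h1
  -- those that contain `X`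
  have h2 : (Nat.card {G : Submodule K V // (finrank K G = k ∧ G ≤ T) ∧ X ≤ G} : ℚ) =
      ((Nat.card K : ℚ) ^ k - 1) / (Nat.card K - 1) := by
    have hX' : finrank K (X.comap T.subtype) = 1 := by
      rw [(Submodule.comapSubtypeEquivOfLe hXT).finrank_eq, hX]
    have h3 := card_above (X.comap T.subtype) k (by rw [hX']; exact hk) (by omega)
    rw [hX', hT, Nat.add_sub_cancel] at h3
    obtain ⟨k', rfl⟩ : ∃ k', k = k' + 1 := ⟨k - 1, by omega⟩
    rw [Nat.add_sub_cancel, gb_hyper (two_le_card K)] at h3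
    rw [← h3]
    congr 1
    apply Nat.card_congr
    refine ⟨fun W => ⟨W.1.comap T.subtype, ?_, ?_⟩, fun W => ⟨W.1.map T.subtype, ⟨?_, ?_⟩, ?_⟩, ?_, ?_⟩
    · rw [(Submodule.comapSubtypeEquivOfLe W.2.1.2).finrank_eq, W.2.1.1]
    · exact Submodule.comap_mono W.2.2
    · rw [Submodule.finrank_map_subtype_eq, W.2.1]
    · exact Submodule.map_subtype_le T W.1
    · have := Submodule.map_mono (f := T.subtype) W.2.2
      rw [Submodule.map_comap_subtype, inf_eq_right.2 hXT] at this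
      exact this
    · intro W
      apply Subtype.ext
      simp only
      rw [Submodule.map_comap_subtype, inf_eq_right.2 W.2.1.2]
    · intro W
      apply Subtype.ext
      simp only
      exact Submodule.comap_map_eq_of_injective T.subtype_injective W.1
  have h4 : Nat.card {G : Submodule K V // finrank K G = k ∧ G ≤ T} =
      Nat.card {G : Submodule K V // (finrank K G = k ∧ G ≤ T) ∧ X ≤ G} +
        Nat.card {G : Submodule K V // (finrank K G = k ∧ G ≤ T) ∧ ¬ X ≤ G} := by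
    simp only [Nat.card_eq_fintype_card, Fintype.card_subtype]
    have e1 : (univ.filter (fun G : Submodule K V => (finrank K G = k ∧ G ≤ T) ∧ X ≤ G)) =
        (univ.filter (fun G : Submodule K V => finrank K G = k ∧ G ≤ T)).filter (fun G => X ≤ G) := by
      rw [Finset.filter_filter]
    have e2 : (univ.filter (fun G : Submodule K V => (finrank K G = k ∧ G ≤ T) ∧ ¬ X ≤ G)) =
        (univ.filter (fun G : Submodule K V => finrank K G = k ∧ G ≤ T)).filter
          (fun G => ¬ X ≤ G) := by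
      rw [Finset.filter_filter]
    rw [e1, e2]
    exact (Finset.card_filter_add_card_filter_not _).symm
  have h5 : ((Nat.card {G : Submodule K V // finrank K G = k ∧ G ≤ T} : ℕ) : ℚ) =
      (Nat.card {G : Submodule K V // (finrank K G = k ∧ G ≤ T) ∧ X ≤ G} : ℕ) +
        (Nat.card {G : Submodule K V // (finrank K G = k ∧ G ≤ T) ∧ ¬ X ≤ G} : ℕ) := by
    exact_mod_cast h4
  rw [h1, h2] at h5
  have hq1 : (1 : ℚ) < Nat.card K := by exact_mod_cast (two_le_card K)
  have h6 : ((Nat.card {G : Submodule K V // (finrank K G = k ∧ G ≤ T) ∧ ¬ X ≤ G} : ℕ) : ℚ) =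
      ((Nat.card K : ℚ) ^ (k + 1) - 1) / (Nat.card K - 1) - ((Nat.card K : ℚ) ^ k - 1) / (Nat.card K - 1) := by
    linarith
  rw [h6, ← sub_div, div_eq_iff (by linarith)]
  ring


open Classical in
/-- `L` is a two-dimensional space that meets every member of the family. -/
def Trans (F : Finset (Submodule K V)) (L : Submodule K V) : Prop :=
  finrank K L = 2 ∧ ∀ W ∈ F, L ⊓ W ≠ ⊥

/-- A point on no transversal plane has small degree. -/
lemma deg_small (F : Finset (Submodule K V)) (k : ℕ) (hF : ∀ W ∈ F, finrank K W = k)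
    (hint : ∀ W ∈ F, ∀ W' ∈ F, W ⊓ W' ≠ ⊥) (hk3 : 3 ≤ k) (hn : 3 * k ≤ finrank K V)
    (P : Submodule K V) (hP : finrank K P = 1) (hno : ∀ L, Trans F L → ¬ P ≤ L)
    (F1 : Submodule K V) (hF1 : F1 ∈ F) (hPF1 : ¬ P ≤ F1) :
    (deg F P : ℚ) ≤ gb (Nat.card K) (finrank K V - 2) (k - 2) := by
  classical
  have hq := two_le_card K
  -- choose a member missing the plane `P ⊔ Q`
  have hch : ∀ Q ∈ pts F1, ∃ F2 ∈ F, (P ⊔ Q) ⊓ F2 = ⊥ := by
    intro Q hQ
    rw [mem_pts] at hQ
    by_contra hcon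
    push Not at hcon
    refine hno (P ⊔ Q) ⟨?_, fun W hW => hcon W hW⟩ le_sup_left
    rw [finrank_sup_pt hQ.1, hP]
    intro hle
    have := pt_eq hQ.1 hP hle
    exact hPF1 (this ▸ hQ.2)
  choose! f hfF hf using hch
  have hsub : F.filter (fun W => P ≤ W) ⊆
      (pts F1).biUnion (fun Q => (pts (f Q)).biUnion (fun R => F.filter (fun W => P ⊔ Q ⊔ R ≤ W))) := by
    intro W hW
    rw [mem_filter] at hW
    obtain ⟨Q, hQ, hQW⟩ := exists_pt (hint W hW.1 F1 hF1)
    have hQ1 : Q ∈ pts F1 := mem_pts.2 ⟨hQ, hQW.trans inf_le_right⟩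
    obtain ⟨R, hR, hRW⟩ := exists_pt (hint W hW.1 (f Q) (hfF Q hQ1))
    rw [mem_biUnion]
    refine ⟨Q, hQ1, ?_⟩
    rw [mem_biUnion]
    refine ⟨R, mem_pts.2 ⟨hR, hRW.trans inf_le_right⟩, ?_⟩
    rw [mem_filter]
    exact ⟨hW.1, sup_le (sup_le hW.2 (hQW.trans inf_le_left)) (hRW.trans inf_le_left)⟩
  have hbound : ∀ Q ∈ pts F1, ∀ R ∈ pts (f Q), ((F.filter (fun W => P ⊔ Q ⊔ R ≤ W)).card : ℚ) ≤
      gb (Nat.card K) (finrank K V - 3) (k - 3) := by
    intro Q hQ R hR
    have hQ' := mem_pts.1 hQ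
    have hR' := mem_pts.1 hR
    have h1 : finrank K (P ⊔ Q : Submodule K V) = 2 := by
      rw [finrank_sup_pt hQ'.1, hP]
      intro hle
      have := pt_eq hQ'.1 hP hle
      exact hPF1 (this ▸ hQ'.2)
    have h2 : finrank K (P ⊔ Q ⊔ R : Submodule K V) = 3 := by
      rw [finrank_sup_pt hR'.1, h1]
      intro hle
      have h3 : R ≤ (P ⊔ Q) ⊓ f Q := le_inf hle hR'.2
      rw [hf Q hQ] at h3
      have h4 := Submodule.finrank_mono h3
      rw [hR'.1, finrank_bot] at h4
      omega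
    have h3 := deg_le F k hF (P ⊔ Q ⊔ R) (by omega) (by omega)
    rw [h2] at h3
    exact h3
  have h1 : (deg F P : ℚ) ≤ ∑ Q ∈ pts F1, ∑ R ∈ pts (f Q), gb (Nat.card K) (finrank K V - 3) (k - 3) := by
    have h2 : ((F.filter (fun W => P ≤ W)).card : ℚ) ≤
        ∑ Q ∈ pts F1, ∑ R ∈ pts (f Q), ((F.filter (fun W => P ⊔ Q ⊔ R ≤ W)).card : ℚ) := by
      have h3 := (card_le_card hsub).trans card_biUnion_le
      have h4 : ∑ Q ∈ pts F1, ((pts (f Q)).biUnion (fun R => F.filter (fun W => P ⊔ Q ⊔ R ≤ W))).card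
          ≤ ∑ Q ∈ pts F1, ∑ R ∈ pts (f Q), (F.filter (fun W => P ⊔ Q ⊔ R ≤ W)).card :=
        sum_le_sum fun Q _ => card_biUnion_le
      exact_mod_cast h3.trans h4
    unfold deg
    refine h2.trans (sum_le_sum fun Q hQ => sum_le_sum fun R hR => hbound Q hQ R hR)
  have h2 : ∑ Q ∈ pts F1, ∑ R ∈ pts (f Q), gb (Nat.card K) (finrank K V - 3) (k - 3) =
      (br (Nat.card K) k : ℚ) * br (Nat.card K) k * gb (Nat.card K) (finrank K V - 3) (k - 3) := by
    have h3 : ∀ Q ∈ pts F1, ∑ R ∈ pts (f Q), gb (Nat.card K) (finrank K V - 3) (k - 3) =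
        (br (Nat.card K) k : ℚ) * gb (Nat.card K) (finrank K V - 3) (k - 3) := by
      intro Q hQ
      rw [sum_const, nsmul_eq_mul, card_pts', hF _ (hfF Q hQ)]
    rw [sum_congr rfl h3, sum_const, nsmul_eq_mul, card_pts', hF _ hF1]
    ring
  rw [h2] at h1
  refine h1.trans ?_
  have h4 := gb_step hq (finrank K V - 3) (k - 3) (by omega)
  rw [show finrank K V - 3 + 1 = finrank K V - 2 by omega, show k - 3 + 1 = k - 2 by omega,
    show finrank K V - 3 - (k - 3) = finrank K V - k by omega] at h4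
  refine le_trans ?_ h4
  apply mul_le_mul_of_nonneg_right _ (gb_nonneg hq _ _)
  have hq1 : (2 : ℚ) ≤ Nat.card K := by exact_mod_cast hq
  have hbr : (br (Nat.card K) k : ℚ) ≤ (Nat.card K : ℚ) ^ k := by
    rw [br_cast hq, div_le_iff₀ (by linarith)]
    have : (0 : ℚ) < (Nat.card K : ℚ) ^ k := by positivity
    nlinarith
  have hbr0 : (0 : ℚ) ≤ (br (Nat.card K) k : ℚ) := by positivity
  calc (br (Nat.card K) k : ℚ) * br (Nat.card K) k ≤ (Nat.card K : ℚ) ^ k * (Nat.card K : ℚ) ^ k :=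
        mul_le_mul hbr hbr hbr0 (by positivity)
    _ = (Nat.card K : ℚ) ^ (k + k) := by rw [pow_add]
    _ ≤ (Nat.card K : ℚ) ^ (finrank K V - k) := pow_le_pow_right₀ (by linarith) (by omega)

end Pool.Agent.K4H69.SF
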