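import Pool.Agent.K4H69.SFc

set_option autoImplicit false

open Module Finset

namespace Pool.Agent.K4H69.SF

variable {K V : Type} [Field K] [Finite K] [AddCommGroup V] [Module K V] [Module.Finite K V]

/-- The bound of the problem. -/
noncomputable def bound (q n k i : ℕ) : ℚ :=
  gb q (n - 2) (k - 2) + (q : ℚ) ^ (k - 1) * gb q (n - i - 1) (k - i)

open Classical in
/-- the points of degree larger than the bound -/
noncomputable def high (F : Finset (Submodule K V)) (B : ℚ) : Finset (Submodule K V) :=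
  univ.filter (fun P => finrank K P = 1 ∧ B < deg F P)

lemma mem_high {F : Finset (Submodule K V)} {B : ℚ} {P : Submodule K V} :
    P ∈ high F B ↔ finrank K P = 1 ∧ B < deg F P := by simp [high]

lemma bound_ge {q : ℕ} (hq : 2 ≤ q) (n k i : ℕ) : gb q (n - 2) (k - 2) ≤ bound q n k i := by
  unfold bound
  have := gb_nonneg hq (n - i - 1) (k - i)
  have : 0 ≤ (q : ℚ) ^ (k - 1) * gb q (n - i - 1) (k - i) := by positivity
  linarith

/-- The number of members of the family avoiding `X`, if all `G ⊔ X` contain `U`. -/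
lemma card_avoid (A : Finset (Submodule K V)) (k m : ℕ) (hA : ∀ W ∈ A, finrank K W = k)
    (X U : Submodule K V) (hX : finrank K X = 1) (hU : finrank K U = m) (hXU : X ≤ U)
    (hAX : ∀ W ∈ A, ¬ X ≤ W) (hAU : ∀ W ∈ A, U ≤ W ⊔ X) (hk : 1 ≤ k) (hm : m ≤ k + 1)
    (hn : k + 1 ≤ finrank K V) :
    (A.card : ℚ) ≤ (Nat.card K : ℚ) ^ k * gb (Nat.card K) (finrank K V - m) (k + 1 - m) := by
  classical
  set 𝒯 : Finset (Submodule K V) := univ.filter (fun T => finrank K T = k + 1 ∧ U ≤ T) with h𝒯
  have h1 : (𝒯.card : ℚ) = gb (Nat.card K) (finrank K V - m) (k + 1 - m) := by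
    have h2 := card_above U (k + 1) (by omega) hn
    rw [hU, Nat.card_eq_fintype_card, Fintype.card_subtype] at h2
    rw [← h2]
  have hsub : A ⊆ 𝒯.biUnion (fun T => univ.filter
      (fun G : Submodule K V => (finrank K G = k ∧ G ≤ T) ∧ ¬ X ≤ G)) := by
    intro W hW
    rw [mem_biUnion]
    refine ⟨W ⊔ X, ?_, ?_⟩
    · rw [h𝒯, mem_filter]
      exact ⟨mem_univ _, by rw [finrank_sup_pt hX (hAX W hW), hA W hW], hAU W hW⟩
    · rw [mem_filter]
      exact ⟨mem_univ _, ⟨hA W hW, le_sup_left⟩, hAX W hW⟩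
  have h3 : (A.card : ℚ) ≤ ∑ T ∈ 𝒯, ((univ.filter
      (fun G : Submodule K V => (finrank K G = k ∧ G ≤ T) ∧ ¬ X ≤ G)).card : ℚ) := by
    exact_mod_cast (card_le_card hsub).trans card_biUnion_le
  refine h3.trans ?_
  have h4 : ∀ T ∈ 𝒯, ((univ.filter
      (fun G : Submodule K V => (finrank K G = k ∧ G ≤ T) ∧ ¬ X ≤ G)).card : ℚ) =
      (Nat.card K : ℚ) ^ k := by
    intro T hT
    rw [h𝒯, mem_filter] at hT
    rw [← card_hyper T X k hT.2.1 hX (hXU.trans hT.2.2) hk, Nat.card_eq_fintype_card,
      Fintype.card_subtype]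
  rw [sum_congr rfl h4, sum_const, nsmul_eq_mul, h1, mul_comm]

/-- The case in which all transversal planes pass through the point `X`. -/
lemma star_case (F : Finset (Submodule K V)) (k i : ℕ) (hF : ∀ W ∈ F, finrank K W = k)
    (hk3 : 3 ≤ k) (hn : 3 * k ≤ finrank K V) (hi3 : 3 ≤ i) (hik : i ≤ k)
    (X : Submodule K V) (hX : finrank K X = 1)
    (hall : ∀ L, Trans F L → X ≤ L) (G0 : Submodule K V) (hG0 : G0 ∈ F) (hXG0 : ¬ X ≤ G0)
    (hhigh : ∀ P ∈ high F (bound (Nat.card K) (finrank K V) k i), ∃ L, Trans F L ∧ P ≤ L) :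
    (high F (bound (Nat.card K) (finrank K V) k i)).card < br (Nat.card K) (i + 1) := by
  classical
  have hq := two_le_card K
  have hq1 : (2 : ℚ) ≤ Nat.card K := by exact_mod_cast hq
  set n := finrank K V with hndef
  set q := Nat.card K with hqdef
  set H := high F (bound q n k i) with hH
  set A : Finset (Submodule K V) := F.filter (fun W => ¬ X ≤ W) with hAdef
  have hAF : ∀ W ∈ A, W ∈ F := fun W hW => (mem_filter.1 hW).1
  have hAX : ∀ W ∈ A, ¬ X ≤ W := fun W hW => (mem_filter.1 hW).2
  set U : Submodule K V := A.inf (fun W => W ⊔ X) with hUdef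
  have hXU : X ≤ U := Finset.le_inf fun W _ => le_sup_right
  have hUA : ∀ W ∈ A, U ≤ W ⊔ X := fun W hW => Finset.inf_le hW
  have hG0A : G0 ∈ A := mem_filter.2 ⟨hG0, hXG0⟩
  -- high points lie in `U`
  have hHU : ∀ P ∈ H, P ≤ U := by
    intro P hP
    obtain ⟨L, hL, hPL⟩ := hhigh P hP
    refine Finset.le_inf fun W hW => ?_
    obtain ⟨R, hR, hRL⟩ := exists_pt (hL.2 W (hAF W hW))
    have hXL := hall L hL
    have hRX : ¬ R ≤ X := by
      intro hle
      have := pt_eq hR hX hle
      exact hAX W hW (this ▸ (hRL.trans inf_le_right))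
    have h1 : X ⊔ R = L := by
      apply Submodule.eq_of_le_of_finrank_eq (sup_le hXL (hRL.trans inf_le_left))
      rw [finrank_sup_pt hR hRX, hX, hL.1]
    calc P ≤ L := hPL
      _ = X ⊔ R := h1.symm
      _ ≤ W ⊔ X := sup_le le_sup_right ((hRL.trans inf_le_right).trans le_sup_left)
  have hHpts : H ⊆ pts U := by
    intro P hP
    rw [mem_pts]
    exact ⟨(mem_high.1 hP).1, hHU P hP⟩
  obtain ⟨m, hm⟩ : ∃ m, finrank K U = m := ⟨_, rfl⟩
  have hmk : m ≤ k + 1 := by
    have h1 := Submodule.finrank_mono (hUA G0 hG0A)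
    rw [finrank_sup_pt hX hXG0, hF G0 hG0, hm] at h1
    exact h1
  rcases Nat.lt_or_ge i m with him | him
  swap
  · -- `U` is small
    have h1 := card_le_card hHpts
    rw [card_pts', hm] at h1
    exact lt_of_le_of_lt (h1.trans (br_mono him)) (br_lt hq (Nat.lt_succ_self i))
  -- the degree of a point of `U`
  have hcardA := card_avoid A k m (fun W hW => hF W (hAF W hW)) X U hX hm hXU hAX hUA
    (by omega) hmk (by omega)
  rw [← hndef, ← hqdef] at hcardA
  have hdeg : ∀ P : Submodule K V, finrank K P = 1 → P ≠ X →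
      (deg F P : ℚ) ≤ gb q (n - 2) (k - 2) + ((A.filter (fun W => P ≤ W)).card : ℚ) := by
    intro P hP hPX
    have h1 : finrank K (X ⊔ P : Submodule K V) = 2 := by
      rw [finrank_sup_pt hP, hX]
      intro hle
      exact hPX (pt_eq hP hX hle)
    have h2 := deg_le F k hF (X ⊔ P) (by omega) (by omega)
    rw [h1, ← hndef, ← hqdef] at h2
    have h3 : F.filter (fun W => P ≤ W) ⊆
        (F.filter (fun W => X ⊔ P ≤ W)) ∪ (A.filter (fun W => P ≤ W)) := by
      intro W hW
      rw [mem_filter] at hW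
      rw [mem_union, mem_filter, mem_filter, hAdef, mem_filter]
      by_cases h : X ≤ W
      · left; exact ⟨hW.1, sup_le h hW.2⟩
      · right; exact ⟨⟨hW.1, h⟩, hW.2⟩
    have h4 : (deg F P : ℚ) ≤ (deg F (X ⊔ P) : ℚ) + ((A.filter (fun W => P ≤ W)).card : ℚ) := by
      unfold deg
      exact_mod_cast (card_le_card h3).trans (card_union_le _ _)
    linarith
  rcases Nat.lt_or_ge (i + 1) m with him1 | him1
  · -- `m > i + 1`: every point other than `X` has small degree
    have hsub : H ⊆ {X} := by
      intro P hP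
      rw [mem_singleton]
      by_contra hPX
      have h1 := mem_high.1 hP
      have h2 := hdeg P h1.1 hPX
      have h3 : ((A.filter (fun W => P ≤ W)).card : ℚ) ≤ A.card := by
        exact_mod_cast card_le_card (filter_subset _ _)
      have h4 := gb_steps hq (n - m) (k + 1 - m) (m - i - 1) (by omega)
      rw [show n - m + (m - i - 1) = n - i - 1 by omega,
        show k + 1 - m + (m - i - 1) = k - i by omega] at h4
      have h5 : (q : ℚ) ^ 1 ≤ (q : ℚ) ^ ((n - m - (k + 1 - m)) * (m - i - 1)) := by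
        apply pow_le_pow_right₀ (by linarith)
        have h6 : 1 ≤ n - m - (k + 1 - m) := by omega
        have h7 : 1 ≤ m - i - 1 := by omega
        calc 1 = 1 * 1 := rfl
          _ ≤ _ := Nat.mul_le_mul h6 h7
      have h8 := gb_nonneg hq (n - m) (k + 1 - m)
      have h9 : (q : ℚ) ^ k * gb q (n - m) (k + 1 - m) ≤
          (q : ℚ) ^ (k - 1) * gb q (n - i - 1) (k - i) := by
        calc (q : ℚ) ^ k * gb q (n - m) (k + 1 - m)
            = (q : ℚ) ^ (k - 1) * ((q : ℚ) ^ 1 * gb q (n - m) (k + 1 - m)) := by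
              rw [← mul_assoc, ← pow_add]; congr 2; omega
          _ ≤ (q : ℚ) ^ (k - 1) * gb q (n - i - 1) (k - i) := by
              apply mul_le_mul_of_nonneg_left _ (by positivity)
              exact (mul_le_mul_of_nonneg_right h5 h8).trans h4
      have h10 := h1.2
      unfold bound at h10
      linarith
    have h1 := card_le_card hsub
    rw [card_singleton] at h1
    have h2 : 2 ≤ br q (i + 1) := by
      have h3 : br q 1 < br q (i + 1) := br_lt hq (by omega)
      have h4 : br q 1 = 1 := by simp [br]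
      omega
    omega
  · -- `m = i + 1`: averaging
    have hmi : m = i + 1 := by omega
    by_contra hcon
    push Not at hcon
    have hHeq : H = pts U := by
      apply Finset.eq_of_subset_of_card_le hHpts
      rw [card_pts', hm, hmi]
      exact hcon
    set c : ℚ := (q : ℚ) ^ (k - 1) * gb q (n - i - 1) (k - i) with hc
    have hcpos : 0 ≤ c := by
      have := gb_nonneg hq (n - i - 1) (k - i)
      positivity
    set D : Finset (Submodule K V) := (pts U).erase X with hD
    have hXmem : X ∈ pts U := mem_pts.2 ⟨hX, hXU⟩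
    have hDcard : D.card + 1 = br q (i + 1) := by
      rw [hD, card_erase_add_one hXmem, card_pts', hm, hmi]
    have hg : ∀ P ∈ D, c < ((A.filter (fun W => P ≤ W)).card : ℚ) := by
      intro P hP
      rw [hD, mem_erase] at hP
      have h1 : P ∈ H := by rw [hHeq]; exact hP.2
      have h2 := mem_high.1 h1
      have h3 := hdeg P h2.1 hP.1
      have h4 := h2.2
      unfold bound at h4
      linarith
    have hDne : D.Nonempty := by
      rw [← card_pos]
      have h3 : br q 1 < br q (i + 1) := br_lt hq (by omega)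
      have h4 : br q 1 = 1 := by simp [br]
      omega
    have hsum1 : (D.card : ℚ) * c < ∑ P ∈ D, ((A.filter (fun W => P ≤ W)).card : ℚ) := by
      rw [← nsmul_eq_mul, ← sum_const]
      exact sum_lt_sum_of_nonempty hDne hg
    have hsum2 : ∑ P ∈ D, ((A.filter (fun W => P ≤ W)).card : ℚ) ≤ (A.card : ℚ) * br q i := by
      have h1 : ∑ P ∈ D, (A.filter (fun W => P ≤ W)).card = ∑ W ∈ A, (D.filter (fun P => P ≤ W)).card :=
        Finset.sum_card_bipartiteAbove_eq_sum_card_bipartiteBelow (fun P W => P ≤ W)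
      have h2 : ∑ W ∈ A, (D.filter (fun P => P ≤ W)).card ≤ ∑ W ∈ A, br q i := by
        apply sum_le_sum
        intro W hW
        have h3 : D.filter (fun P => P ≤ W) ⊆ pts (W ⊓ U) := by
          intro P hP
          rw [mem_filter, hD, mem_erase, mem_pts] at hP
          rw [mem_pts]
          exact ⟨hP.1.2.1, le_inf hP.2 hP.1.2.2⟩
        refine (card_le_card h3).trans ?_
        rw [card_pts']
        apply br_mono
        have h4 : W ⊓ U < U := by
          refine lt_of_le_of_ne inf_le_right ?_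
          intro h5
          exact hAX W hW (hXU.trans (inf_eq_right.1 h5))
        have h6 := Submodule.finrank_lt_finrank_of_lt h4
        omega
      rw [sum_const, smul_eq_mul] at h2
      have h3 := h1.le.trans h2
      exact_mod_cast h3
    -- compare
    have hbr0 : (0 : ℚ) ≤ br q i := by positivity
    have e1 : (D.card : ℚ) = q * br q i := by
      have h1 : (D.card : ℚ) + 1 = br q (i + 1) := by exact_mod_cast hDcard
      rw [br_cast hq] at h1 ⊢
      have h2 : (D.card : ℚ) = ((q : ℚ) ^ (i + 1) - 1) / (q - 1) - 1 := by linarith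
      rw [h2]
      have h3 : (q : ℚ) - 1 ≠ 0 := by linarith
      field_simp
      ring
    have e2 : (A.card : ℚ) ≤ q * c := by
      rw [hmi, show k + 1 - (i + 1) = k - i by omega, show n - (i + 1) = n - i - 1 by omega] at hcardA
      refine hcardA.trans (le_of_eq ?_)
      rw [hc, ← mul_assoc, ← pow_succ']
      congr 2
      omega
    have h1 : (A.card : ℚ) * br q i ≤ q * c * br q i := mul_le_mul_of_nonneg_right e2 hbr0
    rw [e1] at hsum1
    nlinarith

end Pool.Agent.K4H69.SF
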