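import Pool.Agent.K4H69.SFd

set_option autoImplicit false

open Module Finset

namespace Pool.Agent.K4H69.SF

variable {K V : Type} [Field K] [Finite K] [AddCommGroup V] [Module K V] [Module.Finite K V]

/-- an intermediate subspace of given dimension -/
lemma exists_between (A B : Submodule K V) (hAB : A ≤ B) (k : ℕ) (h1 : finrank K A ≤ k)
    (h2 : k ≤ finrank K B) : ∃ W : Submodule K V, A ≤ W ∧ W ≤ B ∧ finrank K W = k := by
  induction k with
  | zero =>
    exact ⟨A, le_rfl, hAB, by omega⟩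
  | succ k ih =>
    rcases Nat.lt_or_ge (finrank K A) (k + 1) with h3 | h3
    · obtain ⟨W, hW1, hW2, hW3⟩ := ih (by omega) (by omega)
      have h4 : ¬ B ≤ W := by
        intro hle
        have := Submodule.finrank_mono hle
        omega
      obtain ⟨x, hxB, hxW⟩ := Set.not_subset.1 h4
      have hx0 : x ≠ 0 := by
        rintro rfl
        exact hxW W.zero_mem
      refine ⟨W ⊔ (K ∙ x), hW1.trans le_sup_left, sup_le hW2 ?_, ?_⟩
      · rwa [Submodule.span_singleton_le_iff_mem]
      · rw [finrank_sup_pt (finrank_span_singleton hx0), hW3]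
        rw [Submodule.span_singleton_le_iff_mem]
        exact hxW
    · exact ⟨A, le_rfl, hAB, by omega⟩

/-- transversal planes of a maximal family meet pairwise -/
lemma trans_meet (F : Finset (Submodule K V)) (k : ℕ) (hk3 : 3 ≤ k) (hn : 3 * k ≤ finrank K V)
    (hmax : ∀ W : Submodule K V, finrank K W = k → (∀ W' ∈ F, W ⊓ W' ≠ ⊥) → W ∈ F)
    (L1 L2 : Submodule K V) (h1 : Trans F L1) (h2 : Trans F L2) : L1 ⊓ L2 ≠ ⊥ := by
  intro h
  obtain ⟨C, hC, hCL⟩ := (disjoint_iff.2 h).exists_isCompl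
  have h3 := Submodule.finrank_add_eq_of_isCompl hCL
  rw [h2.1] at h3
  obtain ⟨W, hW1, hW2, hW3⟩ := exists_between L1 C hC k (by rw [h1.1]; omega) (by omega)
  have h4 : W ∈ F := by
    apply hmax W hW3
    intro W' hW'
    have h5 := h1.2 W' hW'
    intro h6
    apply h5
    rw [eq_bot_iff, ← h6]
    exact inf_le_inf_right _ hW1
  apply h2.2 W h4
  rw [eq_bot_iff, ← hCL.inf_eq_bot, inf_comm]
  exact inf_le_inf_right _ hW2

lemma main_max (F : Finset (Submodule K V)) (k i : ℕ) (hF : ∀ W ∈ F, finrank K W = k)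
    (hint : ∀ W ∈ F, ∀ W' ∈ F, W ⊓ W' ≠ ⊥)
    (hmax : ∀ W : Submodule K V, finrank K W = k → (∀ W' ∈ F, W ⊓ W' ≠ ⊥) → W ∈ F)
    (hn : 3 * k ≤ finrank K V) (hi3 : 3 ≤ i) (hik : i ≤ k) :
    (high F (bound (Nat.card K) (finrank K V) k i)).card < br (Nat.card K) (i + 1) := by
  classical
  have hq := two_le_card K
  have hbr2 : 2 ≤ br (Nat.card K) (i + 1) := by
    have h3 : br (Nat.card K) 1 < br (Nat.card K) (i + 1) := br_lt hq (by omega)
    have h4 : br (Nat.card K) 1 = 1 := by simp [br]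
    omega
  have hB := bound_ge hq (finrank K V) k i
  by_cases hA : ∃ X : Submodule K V, finrank K X = 1 ∧ ∀ W ∈ F, X ≤ W
  · -- all members contain the point `X`
    obtain ⟨X, hX, hXF⟩ := hA
    have hsub : high F (bound (Nat.card K) (finrank K V) k i) ⊆ {X} := by
      intro P hP
      rw [mem_singleton]
      by_contra hPX
      have h1 := mem_high.1 hP
      have h2 : finrank K (X ⊔ P : Submodule K V) = 2 := by
        rw [finrank_sup_pt h1.1, hX]
        intro hle
        exact hPX (pt_eq h1.1 hX hle)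
      have h3 := deg_le F k hF (X ⊔ P) (by omega) (by omega)
      rw [h2] at h3
      have h4 : deg F P ≤ deg F (X ⊔ P) := by
        unfold deg
        apply card_le_card
        intro W hW
        rw [mem_filter] at hW ⊢
        exact ⟨hW.1, sup_le (hXF W hW.1) hW.2⟩
      have h5 : (deg F P : ℚ) ≤ deg F (X ⊔ P) := by exact_mod_cast h4
      linarith [h1.2]
    have h1 := card_le_card hsub
    rw [card_singleton] at h1
    omega
  push Not at hA
  have hhigh : ∀ P ∈ high F (bound (Nat.card K) (finrank K V) k i), ∃ L, Trans F L ∧ P ≤ L := by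
    intro P hP
    by_contra hcon
    push Not at hcon
    have h1 := mem_high.1 hP
    obtain ⟨F1, hF1, hPF1⟩ := hA P h1.1
    have h2 := deg_small F k hF hint (by omega) hn P h1.1 hcon F1 hF1 hPF1
    linarith [h1.2]
  by_cases hT : ∃ L, Trans F L
  swap
  · have : high F (bound (Nat.card K) (finrank K V) k i) = ∅ := by
      rw [eq_empty_iff_forall_notMem]
      intro P hP
      obtain ⟨L, hL, _⟩ := hhigh P hP
      exact hT ⟨L, hL⟩
    rw [this, card_empty]
    omega
  obtain ⟨L1, hL1⟩ := hT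
  have hmeet := trans_meet F k (by omega) hn hmax
  by_cases hX : ∃ X : Submodule K V, finrank K X = 1 ∧ ∀ L, Trans F L → X ≤ L
  · obtain ⟨X, hX, hall⟩ := hX
    obtain ⟨G0, hG0, hXG0⟩ := hA X hX
    exact star_case F k i hF (by omega) hn hi3 hik X hX hall G0 hG0 hXG0 hhigh
  · push Not at hX
    have hL1ne : L1 ≠ ⊥ := by
      rintro rfl
      have := hL1.1
      rw [finrank_bot] at this
      omega
    obtain ⟨X1, hX1, _⟩ := exists_pt hL1ne
    obtain ⟨A0, hA0, hA0L⟩ := exists_pt hL1ne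
    obtain ⟨L2, hL2, hX1L2⟩ := hX A0 hA0
    obtain ⟨X, hXp, hXle⟩ := exists_pt (hmeet L1 L2 hL1 hL2)
    obtain ⟨L3, hL3, hXL3⟩ := hX X hXp
    have hXL1 := hXle.trans inf_le_left
    have hXL2 := hXle.trans inf_le_right
    -- a point of `L2` outside `L1`
    have hinf : L1 ⊓ L2 = X := by
      symm
      apply Submodule.eq_of_le_of_finrank_le hXle
      rw [hXp]
      by_contra hcon
      push Not at hcon
      have h1 : L1 ⊓ L2 = L1 := by
        apply Submodule.eq_of_le_of_finrank_le inf_le_left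
        rw [hL1.1]
        exact hcon
      exact hX1L2 (hA0L.trans (inf_eq_left.1 h1))
    have hPi : finrank K (L1 ⊔ L2 : Submodule K V) = 3 := by
      have h1 := Submodule.finrank_sup_add_finrank_inf_eq L1 L2
      rw [hinf, hXp, hL1.1, hL2.1] at h1
      omega
    -- a plane meeting two of the planes in different points lies in the span
    have hin : ∀ (L M N : Submodule K V), finrank K L = 2 → ∀ P Q : Submodule K V,
        finrank K P = 1 → finrank K Q = 1 → P ≠ Q → P ≤ L → Q ≤ L → P ≤ M → Q ≤ N →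
        L ≤ M ⊔ N := by
      intro L M N hL P Q hP hQ hPQ hPL hQL hPM hQN
      have h1 : P ⊔ Q = L := by
        apply Submodule.eq_of_le_of_finrank_eq (sup_le hPL hQL)
        rw [finrank_sup_pt hQ, hP, hL]
        intro hle
        exact hPQ (pt_eq hQ hP hle).symm
      rw [← h1]
      exact sup_le (hPM.trans le_sup_left) (hQN.trans le_sup_right)
    obtain ⟨P31, hP31, hP31le⟩ := exists_pt (hmeet L3 L1 hL3 hL1)
    obtain ⟨P32, hP32, hP32le⟩ := exists_pt (hmeet L3 L2 hL3 hL2)
    have hne3 : P31 ≠ P32 := by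
      intro h
      have h1 : P31 ≤ L1 ⊓ L2 := le_inf (hP31le.trans inf_le_right) (h ▸ (hP32le.trans inf_le_right))
      rw [hinf] at h1
      have h2 := pt_eq hP31 hXp h1
      exact hXL3 (h2 ▸ (hP31le.trans inf_le_left))
    have hL3Pi : L3 ≤ L1 ⊔ L2 := hin L3 L1 L2 hL3.1 P31 P32 hP31 hP32 hne3
      (hP31le.trans inf_le_left) (hP32le.trans inf_le_left) (hP31le.trans inf_le_right)
      (hP32le.trans inf_le_right)
    have hallPi : ∀ L, Trans F L → L ≤ L1 ⊔ L2 := by
      intro L hL
      obtain ⟨P1, hP1, hP1le⟩ := exists_pt (hmeet L L1 hL hL1)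
      obtain ⟨P2, hP2, hP2le⟩ := exists_pt (hmeet L L2 hL hL2)
      obtain ⟨P3, hP3, hP3le⟩ := exists_pt (hmeet L L3 hL hL3)
      by_cases h12 : P1 = P2
      · have h1 : P1 ≤ L1 ⊓ L2 := le_inf (hP1le.trans inf_le_right) (h12 ▸ (hP2le.trans inf_le_right))
        rw [hinf] at h1
        have h2 := pt_eq hP1 hXp h1
        have h13 : P1 ≠ P3 := by
          intro h
          rw [h2] at h
          exact hXL3 (h ▸ (hP3le.trans inf_le_right))
        have h3 := hin L (L1 ⊔ L2) (L1 ⊔ L2) hL.1 P1 P3 hP1 hP3 h13 (hP1le.trans inf_le_left)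
          (hP3le.trans inf_le_left) ((hP1le.trans inf_le_right).trans le_sup_left)
          ((hP3le.trans inf_le_right).trans hL3Pi)
        rwa [sup_idem] at h3
      · exact hin L L1 L2 hL.1 P1 P2 hP1 hP2 h12 (hP1le.trans inf_le_left)
          (hP2le.trans inf_le_left) (hP1le.trans inf_le_right) (hP2le.trans inf_le_right)
    have hsub : high F (bound (Nat.card K) (finrank K V) k i) ⊆ pts (L1 ⊔ L2) := by
      intro P hP
      obtain ⟨L, hL, hPL⟩ := hhigh P hP
      rw [mem_pts]
      exact ⟨(mem_high.1 hP).1, hPL.trans (hallPi L hL)⟩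
    have h1 := card_le_card hsub
    rw [card_pts', hPi] at h1
    exact lt_of_le_of_lt h1 (br_lt hq (by omega))

/-- every intersecting family is contained in a maximal one -/
lemma exists_max (F : Finset (Submodule K V)) (k : ℕ) (hk : 1 ≤ k) (hF : ∀ W ∈ F, finrank K W = k)
    (hint : ∀ W ∈ F, ∀ W' ∈ F, W ⊓ W' ≠ ⊥) :
    ∃ F' : Finset (Submodule K V), F ⊆ F' ∧ (∀ W ∈ F', finrank K W = k) ∧
      (∀ W ∈ F', ∀ W' ∈ F', W ⊓ W' ≠ ⊥) ∧
      ∀ W : Submodule K V, finrank K W = k → (∀ W' ∈ F', W ⊓ W' ≠ ⊥) → W ∈ F' := by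
  classical
  let S : Finset (Finset (Submodule K V)) := univ.filter (fun F' => F ⊆ F' ∧
    (∀ W ∈ F', finrank K W = k) ∧ (∀ W ∈ F', ∀ W' ∈ F', W ⊓ W' ≠ ⊥))
  have hFS : F ∈ S := by
    simp only [S, mem_filter, mem_univ, true_and]
    exact ⟨subset_rfl, hF, hint⟩
  obtain ⟨F', hF'S, hF'max⟩ := S.exists_max_image Finset.card ⟨F, hFS⟩
  have h1 := hF'S
  simp only [S, mem_filter, mem_univ, true_and] at h1
  refine ⟨F', h1.1, h1.2.1, h1.2.2, ?_⟩
  intro W hW hWF
  by_contra hnot
  have h2 : insert W F' ∈ S := by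
    simp only [S, mem_filter, mem_univ, true_and]
    refine ⟨h1.1.trans (subset_insert _ _), ?_, ?_⟩
    · intro W' hW'
      rcases mem_insert.1 hW' with rfl | h
      · exact hW
      · exact h1.2.1 W' h
    · intro A hA B hB
      rcases mem_insert.1 hA with hA1 | hA1
      · rcases mem_insert.1 hB with hB1 | hB1
        · rw [hA1, hB1, inf_idem]
          rintro rfl
          rw [finrank_bot] at hW
          omega
        · rw [hA1]; exact hWF B hB1
      · rcases mem_insert.1 hB with hB1 | hB1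
        · rw [hB1, inf_comm]; exact hWF A hA1
        · exact h1.2.2 A hA1 B hB1
  have h3 := hF'max _ h2
  rw [card_insert_of_notMem hnot] at h3
  omega

lemma deg_mono {F F' : Finset (Submodule K V)} (h : F ⊆ F') (P : Submodule K V) :
    deg F P ≤ deg F' P := by
  classical
  unfold deg
  exact card_le_card (filter_subset_filter _ h)

theorem main (F : Finset (Submodule K V)) (k i : ℕ) (hF : ∀ W ∈ F, finrank K W = k)
    (hint : ∀ W ∈ F, ∀ W' ∈ F, W ⊓ W' ≠ ⊥)
    (hn : 3 * k ≤ finrank K V) (hi3 : 3 ≤ i) (hik : i ≤ k) :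
    (high F (bound (Nat.card K) (finrank K V) k i)).card < br (Nat.card K) (i + 1) := by
  classical
  obtain ⟨F', h1, h2, h3, h4⟩ := exists_max F k (by omega) hF hint
  refine lt_of_le_of_lt (card_le_card ?_) (main_max F' k i h2 h3 h4 hn hi3 hik)
  intro P hP
  rw [mem_high] at hP ⊢
  refine ⟨hP.1, hP.2.trans_le ?_⟩
  exact_mod_cast deg_mono h1 P

end Pool.Agent.K4H69.SF
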